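import Pool.Agent.H72.EN.Targets
import Pool.Agent.H93.EB.Basic

/-!
# Row TBD: the energies are bounded
-/

set_option autoImplicit false

open Finset Pool.Agent.H6.N4D Pool.Agent.H93.EB Pool.Agent.H28.EN Pool.Agent.H72.EN

namespace Pool.Agent.H91.ENL

theorem pf_TBD : T_TBD := by
  intro X k lam hX hl
  have hX0 : (0 : ℝ) < X := by
    have : 0 < X := by omega
    exact_mod_cast this
  have hlog : 1 ≤ Real.log X := by
    rw [Real.le_log_iff_exp_le hX0]
    have h1 := Real.exp_one_lt_d9
    have h2 : (3 : ℝ) ≤ X := by exact_mod_cast hX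
    linarith
  have hM0 := fun n => M_nonneg lam (2 ^ k) n
  have hM1 := fun n => M_le_one lam hl (2 ^ k) n
  have h1 := lg_one_le X
  have hphi : ∀ n, phi (M lam (2 ^ k) n) ≤ 1 / 2 := by
    intro n
    unfold phi
    have h2 : max (M lam (2 ^ k) n - 63 / 100) 0 ≤ 37 / 100 :=
      max_le (by linarith [hM1 n]) (by norm_num)
    have h3 : 0 ≤ max (M lam (2 ^ k) n - 63 / 100) 0 := le_max_right _ _
    nlinarith
  have hA : lg X (fun n => phi (M lam (2 ^ k) n)) ≤ 1 / 2 * (1 + Real.log X) := by
    calc lg X (fun n => phi (M lam (2 ^ k) n)) ≤ lg X (fun _ => 1 / 2) :=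
          lg_mono fun n _ => hphi n
      _ = 1 / 2 * lg X (fun _ => 1) := lg_const _ _
      _ ≤ _ := by linarith
  have hB : lg X (fun n => M lam (2 ^ k) n ^ 2) ≤ 1 + Real.log X := by
    calc lg X (fun n => M lam (2 ^ k) n ^ 2) ≤ lg X (fun _ => 1) := by
          apply lg_mono
          intro n _
          have := hM0 n
          have := hM1 n
          nlinarith
      _ ≤ _ := h1
  have hl0 : 0 < Real.log X := by linarith
  unfold t t2
  refine ⟨?_, ?_, ?_, ?_⟩
  · exact div_nonneg (lg_nonneg fun n _ => phi_nonneg _) hl0.le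
  · rw [div_le_one hl0]
    linarith
  · exact div_nonneg (lg_nonneg fun n _ => sq_nonneg _) hl0.le
  · rw [div_le_iff₀ hl0]
    linarith

end Pool.Agent.H91.ENL
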